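import Pool.Agent.Helper51.BW.Spec

/-!
# BW, part HITM: all intermediate walks visit `x` before the low sets
-/

set_option autoImplicit false

open MeasureTheory Filter Topology

namespace Pool.Agent.Helper29.BW.HITM

open Pool.Agent.Helper51.BW

variable {d : ℕ} {Ω : Type}

theorem meas_hit [MeasurableSpace Ω] {Y : ℕ → Ω → V d} (hY : ∀ n, Measurable (Y n)) (x : V d)
    (B : Finset (V d)) : MeasurableSet {ω | Hit (fun n => Y n ω) x B} := by
  have h : {ω | Hit (fun n => Y n ω) x B} =
      ⋃ n, ((Y n) ⁻¹' {x} ∩ ⋂ s ∈ Finset.range (n + 1), (Y s) ⁻¹' ((B : Set (V d))ᶜ)) := by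
    ext ω
    simp only [Hit, Set.mem_ofPred_eq, Set.mem_iUnion, Set.mem_inter_iff, Set.mem_preimage,
      Set.mem_singleton_iff, Set.mem_iInter, Finset.mem_range, Set.mem_compl_iff,
      Finset.mem_coe, Nat.lt_succ_iff]
  rw [h]
  refine MeasurableSet.iUnion fun n => ?_
  refine ((hY n) (measurableSet_singleton x)).inter ?_
  refine Finset.measurableSet_biInter _ fun s _ => ?_
  exact (hY s) (B.measurableSet.compl)

theorem meas_path [MeasurableSpace Ω] {Y : ℕ → Ω → V d} (hY : ∀ n, Measurable (Y n)) :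
    MeasurableSet {ω | PathHyp (fun n => Y n ω)} := by
  have h : {ω | PathHyp (fun n => Y n ω)} =
      (Y 0) ⁻¹' {0} ∩ ⋂ t, ⋃ e : D d, {ω | Y (t + 1) ω = Y t ω + dir e} := by
    ext ω
    simp [PathHyp]
  rw [h]
  refine ((hY 0) (measurableSet_singleton 0)).inter ?_
  refine MeasurableSet.iInter fun t => MeasurableSet.iUnion fun e => ?_
  exact measurableSet_eq_fun (hY (t + 1)) ((hY t).add_const _)

theorem meas_trace [MeasurableSpace Ω] {Y Z : ℕ → Ω → V d} (hY : ∀ n, Measurable (Y n))
    (hZ : ∀ n, Measurable (Z n)) :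
    MeasurableSet {ω | ∀ n, Trace (fun s => Y s ω) (Z n ω) (Z (n + 1) ω)} := by
  have h : {ω | ∀ n, Trace (fun s => Y s ω) (Z n ω) (Z (n + 1) ω)} =
      ⋂ n, ⋃ t, (({ω | Y t ω = Z n ω} ∩ {ω | Y (t + 1) ω = Z (n + 1) ω}) ∪
        ({ω | Y t ω = Z (n + 1) ω} ∩ {ω | Y (t + 1) ω = Z n ω})) := by
    ext ω
    simp [Trace]
  rw [h]
  refine MeasurableSet.iInter fun n => MeasurableSet.iUnion fun t => ?_
  exact ((measurableSet_eq_fun (hY t) (hZ n)).inter
    (measurableSet_eq_fun (hY (t + 1)) (hZ (n + 1)))).union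
    ((measurableSet_eq_fun (hY t) (hZ (n + 1))).inter
    (measurableSet_eq_fun (hY (t + 1)) (hZ n)))

/-- the regularity event which is measurable with respect to the walks `0, …, m` -/
def RegM (X : ℕ → ℕ → Ω → V d) (m : ℕ) (ω : Ω) : Prop :=
  PathHyp (fun n => X 0 n ω) ∧
    ∀ m' < m, ∀ n, Trace (fun s => X m' s ω) (X (m' + 1) n ω) (X (m' + 1) (n + 1) ω)

theorem meas_regM [MeasurableSpace Ω] {X : ℕ → ℕ → Ω → V d} {m : ℕ}
    (hX : ∀ m' ≤ m, ∀ n, Measurable (X m' n)) : MeasurableSet {ω | RegM X m ω} := by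
  have h : {ω | RegM X m ω} = {ω | PathHyp (fun n => X 0 n ω)} ∩
      ⋂ m' ∈ Finset.range m,
        {ω | ∀ n, Trace (fun s => X m' s ω) (X (m' + 1) n ω) (X (m' + 1) (n + 1) ω)} := by
    ext ω
    simp [RegM]
  rw [h]
  refine (meas_path fun n => hX 0 (Nat.zero_le m) n).inter ?_
  refine Finset.measurableSet_biInter _ fun m' hm' => ?_
  have := Finset.mem_range.1 hm'
  exact meas_trace (fun n => hX m' (by omega) n) fun n => hX (m' + 1) (by omega) n

theorem trace_symm {Y : ℕ → V d} {x y : V d} (h : Trace Y x y) : Trace Y y x := by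
  obtain ⟨n, h | h⟩ := h
  · exact ⟨n, Or.inr h⟩
  · exact ⟨n, Or.inl h⟩

/-- an edge of the trace of a walk on the trace of `S` is an edge of the trace of `S` -/
theorem trace_of_trace {S Y : ℕ → V d} (h : ∀ n, Trace S (Y n) (Y (n + 1))) {x y : V d}
    (hxy : Trace Y x y) : Trace S x y := by
  obtain ⟨n, ⟨rfl, rfl⟩ | ⟨rfl, rfl⟩⟩ := hxy
  · exact h n
  · exact trace_symm (h n)

/-- all walks `m ≤ m0` are walks on the trace of `X 0` -/
theorem trace_zero {X : ℕ → ℕ → Ω → V d} {ω : Ω} {m0 : ℕ} (h : RegM X m0 ω) :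
    ∀ m ≤ m0, ∀ n, Trace (fun s => X 0 s ω) (X m n ω) (X m (n + 1) ω) := by
  intro m
  induction m with
  | zero => intro _ n; exact ⟨n, Or.inl ⟨rfl, rfl⟩⟩
  | succ m ih =>
    intro hm n
    exact trace_of_trace (S := fun s => X 0 s ω) (Y := fun s => X m s ω)
      (fun n => ih (by omega) n) (h.2 m (by omega) n)

/-- if a walk on the trace of `Y` leaves all finite sets, so does `Y` -/
theorem leaves {Y Z : ℕ → V d} (h0 : Y 0 = 0) (hZ0 : Z 0 = 0)
    (h : ∀ n, Trace Y (Z n) (Z (n + 1)))
    (hZ : ∀ F : Finset (V d), ∃ n, Z n ∉ F) (F : Finset (V d)) : ∃ n, Y n ∉ F := by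
  by_contra hcon
  push Not at hcon
  obtain ⟨n, hn⟩ := hZ F
  have key : ∀ n, Z n ∈ F := by
    intro n
    induction n with
    | zero => rw [hZ0, ← h0]; exact hcon 0
    | succ n ih =>
      obtain ⟨t, ⟨h1, h2⟩ | ⟨h1, h2⟩⟩ := h n
      · rw [← h2]; exact hcon _
      · rw [← h1]; exact hcon _
  exact hn (key n)

/-- an edge of the trace which leaves `{S t : t ≤ b}` starts at `S b` -/
theorem cute {S : ℕ → V d} {b : ℕ} (hb : IsCut S b) {x y : V d} (h : Trace S x y)
    (hx : ∃ t ≤ b, S t = x) (hy : ∀ t ≤ b, S t ≠ y) : x = S b := by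
  obtain ⟨t, ht, rfl⟩ := hx
  obtain ⟨n, ⟨h1, h2⟩ | ⟨h1, h2⟩⟩ := h
  · have h3 : b < n + 1 := by
      by_contra hcon
      exact hy (n + 1) (by omega) h2
    by_cases h4 : n = b
    · rw [← h1, h4]
    · exact absurd h1.symm (hb t n ht (by omega))
  · have h3 : b < n := by
      by_contra hcon
      exact hy n (by omega) h1
    exact absurd h2.symm (hb t (n + 1) ht (by omega))

theorem mem_lowSet {S : ℕ → V d} {a b : ℕ} {u : Fin d → ℝ} {θ : ℝ} {z : V d} :
    z ∈ lowSet S a b u θ ↔ (∃ t, a < t ∧ t ≤ b ∧ S t = z) ∧ ip u (z - S b) < θ := by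
  classical
  simp only [lowSet, Finset.mem_filter, Finset.mem_image, Finset.mem_Ioc]
  constructor
  · rintro ⟨⟨t, ⟨h1, h2⟩, h3⟩, h4⟩
    exact ⟨⟨t, h1, h2, h3⟩, h4⟩
  · rintro ⟨⟨t, h1, h2, h3⟩, h4⟩
    exact ⟨⟨t, ⟨h1, h2⟩, h3⟩, h4⟩

theorem ip_zero (u : Fin d → ℝ) : ip u (0 : V d) = 0 := by simp [ip]

theorem self_mem_lowSet {S : ℕ → V d} {a b : ℕ} {u : Fin d → ℝ} {θ : ℝ} (hab : a < b)
    (hθ : 0 < θ) : S b ∈ lowSet S a b u θ := by
  rw [mem_lowSet, sub_self, ip_zero]
  exact ⟨⟨b, hab, le_rfl, rfl⟩, hθ⟩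

theorem main (hONE : S_ONE) (hSTG1 : S_STG1) (hCONN : S_CONN) (hCROSS : S_CROSS) : S_HITM := by
  classical
  intro d Ω _ μ _ p X hp hp1 hX i hReg s a j b u θ Γ ε pm E haj hjb hpm hpmle hE hEs hθ0 hθpos
    hθmono hgap hεle
  have hε : 0 ≤ ε := le_trans (by positivity) hεle
  have hab : a < b := lt_of_lt_of_le haj hjb
  have hθ_le : ∀ m ≤ i, θ m ≤ θ 0 := by
    intro m
    induction m with
    | zero => intro _; exact le_rfl
    | succ m ih => intro hm; exact (hθmono m (by omega)).trans (ih (by omega))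
  have hsub : ∀ m ≤ i, (m : ℕ) ≤ i → True := fun _ _ _ => trivial
  -- points between `a` and `j` are high
  have hhigh : ∀ m ≤ i, ∀ t, a ≤ t → t ≤ j → s t ∉ lowSet s a b u (θ m) := by
    intro m hm t h1 h2 h3
    rw [mem_lowSet] at h3
    have := hθ0 t h1 h2
    have := hθ_le m hm
    linarith [h3.2]
  intro m
  induction m with
  | zero =>
    intro _
    have hempty : E ∩ {ω | ¬ Hit (fun n => X 0 n ω) (s j) (lowSet s a b u (θ 0))} = ∅ := by
      ext ω
      simp only [Set.mem_inter_iff, Set.mem_ofPred_eq, Set.mem_empty_iff_false, iff_false, not_and,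
        not_not]
      intro hω
      obtain ⟨h1, h2, h3⟩ := hEs ω hω
      refine ⟨j, h1 j hjb, fun t ht => ?_⟩
      show X 0 t ω ∉ _
      rw [h1 t (ht.trans hjb)]
      by_cases hta : a ≤ t
      · exact hhigh 0 (Nat.zero_le _) t hta ht
      · intro hmem
        rw [mem_lowSet] at hmem
        obtain ⟨⟨t', ht', ht'b, heq⟩, -⟩ := hmem
        refine h2 t t' (by omega) ht' ?_
        show X 0 t ω = X 0 t' ω
        rw [h1 t (ht.trans hjb), h1 t' ht'b, heq]
    rw [hempty]
    simp
  | succ m ih =>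
    intro hm
    have him := ih (by omega)
    by_cases hEn : E = ∅
    · subst hEn
      simp
    obtain ⟨ω0, hω0⟩ := Set.nonempty_iff_ne_empty.2 hEn
    obtain ⟨h01, h02, h03⟩ := hEs ω0 hω0
    have hs0 : s 0 = 0 := by rw [← h01 0 (Nat.zero_le _)]; exact hX.start 0 ω0
    -- `s` has cut properties on `[0,b]`
    have hsa : ∀ t t', t ≤ a → a < t' → t' ≤ b → s t ≠ s t' := by
      intro t t' h1 h2 h3
      have := h02 t t' h1 h2
      simp only [h01 t (by omega), h01 t' h3] at this
      exact this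
    -- the measurable part
    have hle0 : sig0 X ≤ past X (m + 1) 0 := by
      rw [sig0, past]
      refine le_trans ?_ le_sup_left
      refine iSup_le fun t => ?_
      refine le_trans ?_ (le_iSup _ 0)
      refine le_trans ?_ (le_iSup _ (by omega : 0 < m + 1))
      exact le_iSup (fun s => MeasurableSpace.comap (X 0 s) inferInstance) t
    have hmX : ∀ m' ≤ m, ∀ n, @Measurable Ω (V d) (past X (m + 1) 0) _ (X m' n) := by
      intro m' hm' n
      have h1 : MeasurableSpace.comap (X m' n) inferInstance ≤ past X (m + 1) 0 := by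
        rw [past]
        refine le_trans ?_ le_sup_left
        refine le_trans ?_ (le_iSup _ m')
        refine le_trans ?_ (le_iSup _ (by omega : m' < m + 1))
        exact le_iSup (fun s => MeasurableSpace.comap (X m' s) inferInstance) n
      exact measurable_iff_comap_le.2 h1
    set E' : Set Ω := E ∩ ({ω | Hit (fun n => X m n ω) (s j) (lowSet s a b u (θ m))} ∩
      {ω | RegM X m ω}) with hE'
    have hE'm : MeasurableSet[past X (m + 1) 0] E' := by
      refine MeasurableSet.inter (hle0 _ hE) (MeasurableSet.inter ?_ ?_)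
      · exact @meas_hit d Ω (past X (m + 1) 0) (X m) (fun n => hmX m le_rfl n) (s j) _
      · exact @meas_regM d Ω (past X (m + 1) 0) X m hmX
    set B := lowSet s a b u (θ (m + 1)) with hB
    set F : Finset (V d) := ((Finset.range (b + 1)).image s) \ B with hF
    have hmemF : ∀ z, z ∈ F ↔ (∃ t, t ≤ b ∧ s t = z) ∧ z ∉ B := by
      intro z
      rw [hF, Finset.mem_sdiff, Finset.mem_image]
      constructor
      · rintro ⟨⟨t, h1, h2⟩, h3⟩
        exact ⟨⟨t, by have := Finset.mem_range.1 h1; omega, h2⟩, h3⟩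
      · rintro ⟨⟨t, h1, h2⟩, h3⟩
        exact ⟨⟨t, Finset.mem_range.2 (by omega), h2⟩, h3⟩
    have h0F : (0 : V d) ∈ F := by
      rw [hmemF]
      refine ⟨⟨0, Nat.zero_le _, hs0⟩, ?_⟩
      rw [hB, mem_lowSet]
      rintro ⟨⟨t', h1, h2, h3⟩, -⟩
      exact hsa 0 t' (Nat.zero_le _) h1 h2 (hs0.trans h3.symm)
    have hxF : s j ∈ F := by
      rw [hmemF]
      exact ⟨⟨j, hjb, rfl⟩, hhigh (m + 1) hm j haj.le le_rfl⟩
    have hdis : Disjoint F B := Finset.sdiff_disjoint
    have key := hONE d Ω μ p X hp hp1 hX (m + 1) E' hE'm F B (s j) 1 ε le_rfl h0F hxF hdis hε ?_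
    · -- conclusion
      have hsubset : E ∩ {ω | ¬ Hit (fun n => X (m + 1) n ω) (s j) B} ⊆
          (E ∩ {ω | ¬ Hit (fun n => X m n ω) (s j) (lowSet s a b u (θ m))}) ∪
          ((E' ∩ {ω | ∃ n, X (m + 1) n ω ∈ B ∧ (∀ s < n, X (m + 1) s ω ∉ B) ∧
            ((Finset.range n).filter (fun t => X (m + 1) t ω = s j)).card < 1}) ∪
            {ω | ¬ Reg X i ω}) := by
        rintro ω ⟨hωE, hωH⟩
        by_cases hR : Reg X i ω
        swap
        · exact Or.inr (Or.inr hR)
        by_cases hH : Hit (fun n => X m n ω) (s j) (lowSet s a b u (θ m))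
        swap
        · exact Or.inl ⟨hωE, hH⟩
        refine Or.inr (Or.inl ?_)
        have hRM : RegM X i ω := ⟨hR.1 0 (Nat.zero_le _), fun m' hm' n => hR.2.1 m' hm' n⟩
        have hRMm : RegM X m ω := ⟨hRM.1, fun m' hm' n => hRM.2 m' (by omega) n⟩
        refine ⟨⟨hωE, hH, hRMm⟩, ?_⟩
        obtain ⟨h1, h2, h3⟩ := hEs ω hωE
        -- all walks leave finite sets
        have hleave : ∀ k, k ≤ i → ∀ F : Finset (V d), ∃ n, X (i - k) n ω ∉ F := by
          intro k
          induction k with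
          | zero => intro _; exact hR.2.2
          | succ k ihk =>
            intro hk
            have h4 := ihk (by omega)
            have h5 : i - k = (i - (k + 1)) + 1 := by omega
            rw [h5] at h4
            exact leaves (hX.start _ ω) (hX.start _ ω) (fun n => hR.2.1 _ (by omega) n) h4
        have hl := hleave (i - (m + 1)) (by omega)
        have h6 : i - (i - (m + 1)) = m + 1 := by omega
        rw [h6] at hl
        obtain ⟨n, hn1, -, -⟩ := hCROSS d (fun n => X 0 n ω) (fun n => X (m + 1) n ω) b hRM.1 h3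
          (hX.start _ ω) (fun n => trace_zero hRM (m + 1) hm n) hl
        have hnB : X (m + 1) n ω ∈ B := by
          have h7 : X (m + 1) n ω = s b := by
            have : X (m + 1) n ω = X 0 b ω := hn1
            rw [this, h1 b le_rfl]
          rw [h7]
          exact self_mem_lowSet hab (hθpos (m + 1) hm)
        -- the first hitting time
        have hex : ∃ n, X (m + 1) n ω ∈ B := ⟨n, hnB⟩
        refine ⟨Nat.find hex, Nat.find_spec hex, fun t ht => Nat.find_min hex ht, ?_⟩
        rw [Nat.lt_one_iff, Finset.card_eq_zero, Finset.filter_eq_empty_iff]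
        intro t ht heq
        rw [Finset.mem_range] at ht
        exact hωH ⟨t, heq, fun t' ht' => Nat.find_min hex (lt_of_le_of_lt ht' ht)⟩
      have hnull : μ {ω | ¬ Reg X i ω} = 0 := ae_iff.1 hReg
      calc μ (E ∩ {ω | ¬ Hit (fun n => X (m + 1) n ω) (s j) B})
          ≤ μ (E ∩ {ω | ¬ Hit (fun n => X m n ω) (s j) (lowSet s a b u (θ m))}) +
            (μ (E' ∩ {ω | ∃ n, X (m + 1) n ω ∈ B ∧ (∀ s < n, X (m + 1) s ω ∉ B) ∧
            ((Finset.range n).filter (fun t => X (m + 1) t ω = s j)).card < 1}) +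
            μ {ω | ¬ Reg X i ω}) := by
            refine (measure_mono hsubset).trans ((measure_union_le _ _).trans ?_)
            exact add_le_add_right (measure_union_le _ _) _
        _ ≤ ENNReal.ofReal (m * ε) * μ E + ENNReal.ofReal ε * μ E := by
            rw [hnull, add_zero]
            exact add_le_add him (key.trans (mul_le_mul_right (measure_mono
              Set.inter_subset_left) _))
        _ = ENNReal.ofReal (((m + 1 : ℕ) : ℝ) * ε) * μ E := by
            rw [← add_mul, ← ENNReal.ofReal_add (by positivity) hε]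
            congr 2
            push_cast
            ring
    · -- the certificate
      rintro ω ⟨hωE, ⟨n0, hn0, hn0B⟩, hωR⟩
      obtain ⟨h1, h2, h3⟩ := hEs ω hωE
      set S : ℕ → V d := fun n => X 0 n ω with hS
      have hSs : ∀ t ≤ b, S t = s t := h1
      have hlow : ∀ θ', lowSet S a b u θ' = lowSet s a b u θ' := by
        intro θ'
        ext z
        rw [mem_lowSet, mem_lowSet, hSs b le_rfl]
        constructor
        · rintro ⟨⟨t, h4, h5, h6⟩, h7⟩
          exact ⟨⟨t, h4, h5, by rw [← hSs t h5]; exact h6⟩, h7⟩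
        · rintro ⟨⟨t, h4, h5, h6⟩, h7⟩
          exact ⟨⟨t, h4, h5, by rw [hSs t h5]; exact h6⟩, h7⟩
      set G : V d → V d → Prop := env X (m + 1) ω with hG
      have hGdef : G = Trace (fun n => X m n ω) := rfl
      have hGS : ∀ x y, G x y → Trace S x y := fun x y h =>
        trace_of_trace (S := S) (Y := fun n => X m n ω) (fun n => trace_zero hωR m le_rfl n) h
      have hGsymm : ∀ x y, G x y → G y x := fun x y h => trace_symm h
      set K : Finset (V d) := ((Finset.Icc a b).image s) \ lowSet s a b u (θ m) with hK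
      have hmemK : ∀ z, z ∈ K ↔ (∃ t, a ≤ t ∧ t ≤ b ∧ s t = z) ∧ z ∉ lowSet s a b u (θ m) := by
        intro z
        rw [hK, Finset.mem_sdiff, Finset.mem_image]
        constructor
        · rintro ⟨⟨t, h4, h5⟩, h6⟩
          exact ⟨⟨t, (Finset.mem_Icc.1 h4).1, (Finset.mem_Icc.1 h4).2, h5⟩, h6⟩
        · rintro ⟨⟨t, h4, h4', h5⟩, h6⟩
          exact ⟨⟨t, Finset.mem_Icc.2 ⟨h4, h4'⟩, h5⟩, h6⟩
      have hBm : ∀ z ∈ B, z ∈ lowSet s a b u (θ m) := by
        intro z hz
        rw [hB, mem_lowSet] at hz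
        rw [mem_lowSet]
        exact ⟨hz.1, lt_of_lt_of_le hz.2 (hθmono m (by omega))⟩
      have hconn := hCONN d S (fun n => X m n ω) a j b n0 (lowSet s a b u (θ m)) hωR.1 haj hjb h2
        h3 (hX.start m ω) (fun n => trace_zero hωR m le_rfl n) (by
          intro z hz
          rw [mem_lowSet] at hz
          obtain ⟨⟨t, h4, h5, h6⟩, -⟩ := hz
          exact ⟨t, h4, h5, by rw [hSs t h5]; exact h6⟩)
        (by
          rw [hSs b le_rfl]
          exact self_mem_lowSet hab (hθpos m (by omega)))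
        (by
          show X m n0 ω = S j
          rw [hSs j hjb]
          exact hn0) hn0B
      obtain ⟨q, hq01, hqB, hqx, hqsup, hq0⟩ := hSTG1 d (p (m + 1)) pm Γ S G a b (s j) K B hpm
        (hpmle (m + 1) hm) (hp1 _) hωR.1 hGS hGsymm hab h2 h3
        (by
          intro z hz
          rw [hB, mem_lowSet] at hz
          obtain ⟨⟨t, h4, h5, h6⟩, -⟩ := hz
          exact ⟨t, h4, h5, by rw [hSs t h5]; exact h6⟩)
        (by
          rw [hSs b le_rfl]
          exact self_mem_lowSet hab (hθpos (m + 1) hm))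
        (by
          intro z hz
          rw [hmemK] at hz
          obtain ⟨⟨t, h4, h5, h6⟩, -⟩ := hz
          exact ⟨t, h4, h5, by rw [hSs t h5]; exact h6⟩)
        (by
          rw [Finset.disjoint_left]
          intro z hz hzB
          rw [hmemK] at hz
          exact hz.2 (hBm z hzB))
        (by
          rw [hSs a hab.le, hmemK]
          exact ⟨⟨a, le_rfl, hab.le, rfl⟩, hhigh m (by omega) a le_rfl haj.le⟩)
        (by
          rw [hmemK]
          exact ⟨⟨j, haj.le, hjb, rfl⟩, hhigh m (by omega) j haj.le le_rfl⟩)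
        (by
          have h8 : s j = S j := (hSs j hjb).symm
          rw [h8]
          refine Relation.ReflTransGen.mono ?_ _ _ hconn
          rintro z z' ⟨⟨⟨t, h4, h5, h6⟩, h7⟩, ⟨⟨t', h4', h5', h6'⟩, h7'⟩, h9⟩
          refine ⟨?_, ?_, h9⟩
          · rw [hmemK]
            exact ⟨⟨t, h4, h5, by rw [← hSs t h5]; exact h6⟩, h7⟩
          · rw [hmemK]
            exact ⟨⟨t', h4', h5', by rw [← hSs t' h5']; exact h6'⟩, h7'⟩)
        (by
          intro z hz z' hz'
          rw [hmemK] at hz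
          rw [hB, mem_lowSet] at hz'
          obtain ⟨⟨t, h4, h5, rfl⟩, h7⟩ := hz
          obtain ⟨⟨t', h4', h5', rfl⟩, h7'⟩ := hz'
          refine hgap m (by omega) t t' h4 h5 h4'.le h5' ?_ h7'
          rcases Nat.lt_or_ge a t with h8 | h8
          · by_contra hcon
            push Not at hcon
            exact h7 (mem_lowSet.2 ⟨⟨t, h8, h5, rfl⟩, hcon⟩)
          · have h9 : t = a := le_antisymm h8 h4
            rw [h9]
            exact (hθ_le m (by omega)).trans (hθ0 a le_rfl haj.le))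
      refine ⟨q, ∑ e, trans (p (m + 1)) (env X (m + 1) ω) (s j) e * q (s j + dir e), ?_, hq01,
        hqB, hqx, ?_, ?_, le_rfl, ?_⟩
      · refine Finset.sum_nonneg fun e _ => mul_nonneg ?_ (hq01 _).1
        unfold Pool.Agent.Helper51.BW.trans
        split_ifs with h
        · refine div_nonneg (hp _ _).le (Finset.sum_nonneg fun e' _ => ?_)
          split_ifs
          · exact (hp _ _).le
          · exact le_rfl
        · exact le_rfl
      · intro z hz e h4 h5
        rw [hmemF] at hz
        obtain ⟨⟨t, h6, h7⟩, h8⟩ := hz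
        unfold Pool.Agent.Helper51.BW.trans
        rw [if_neg]
        intro hGe
        have h9 : ∀ t ≤ b, S t ≠ z + dir e := by
          intro t' ht' heq
          apply h4
          rw [hmemF]
          exact ⟨⟨t', ht', by rw [← hSs t' ht']; exact heq⟩, h5⟩
        have h10 := cute h3 (hGS _ _ hGe) ⟨t, h6, by
          show S t = z
          rw [hSs t h6]; exact h7⟩ h9
        apply h8
        rw [h10]
        show S b ∈ B
        rw [hSs b le_rfl]
        exact self_mem_lowSet hab (hθpos (m + 1) hm)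
      · intro z hz hzx
        rw [hmemF] at hz
        obtain ⟨⟨t, h6, h7⟩, h8⟩ := hz
        have h9 := hqsup t h6 (by rw [hSs t h6, h7]; exact h8) (by rw [hSs t h6, h7]; exact hzx)
        rw [hSs t h6, h7] at h9
        exact h9
      · have := hq0.trans hεle
        simp only [Nat.cast_one, sub_self, mul_zero, add_zero]
        exact this

end Pool.Agent.Helper29.BW.HITM
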